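import Pool.Agent.Q157.DC.Full

set_option autoImplicit false

/-!
# The diameter of random cubical graphs (MP_d3947f_pr, Q1, answered in the affirmative)

For all fixed `pv, pe` in `(0, 1]` with `p = pv * pe < 1/2` the random cubical graph `h_n` satisfies
`D(h_n) = n + m_p` asymptotically almost surely.
-/

open Filter Topology
open scoped symmDiff

namespace Pool.Agent.Results.MP_d3947f_pr.DiameterOfRandomCubicalGraphs

/-- The vertices of the `n`-cube `Q_n`: the vertex `x` of `{0,1}^n` is coded by the set of
coordinates in which it is `1`. -/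
abbrev Vertex (n : ℕ) : Type := Finset (Fin n)

/-- A family of marks: one for each vertex and one for each unordered pair of vertices (only the
marks of the edges of `Q_n` are used). -/
abbrev Marks (n : ℕ) : Type := Vertex n ⊕ Sym2 (Vertex n) → Bool

/-- The probability of the family of marks `ω` when all marks are independent, a vertex has mark
`true` with probability `pv` and a pair has mark `true` with probability `pe`. -/
noncomputable def weight (pv pe : ℝ) {n : ℕ} (ω : Marks n) : ℝ :=
  (∏ v : Vertex n, if ω (Sum.inl v) = true then pv else 1 - pv) *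
    ∏ e : Sym2 (Vertex n), if ω (Sum.inr e) = true then pe else 1 - pe

open Classical in
/-- The probability of the event `A`. -/
noncomputable def prob (pv pe : ℝ) (n : ℕ) (A : Marks n → Prop) : ℝ :=
  ∑ ω : Marks n, if A ω then weight pv pe ω else 0

/-- `V_n`: the kept vertices. -/
def Kept {n : ℕ} (ω : Marks n) (v : Vertex n) : Prop := ω (Sum.inl v) = true

/-- The random cubical graph `h_n`: two kept vertices which differ in exactly one coordinate are
adjacent when the edge between them has mark `true`. Vertices that are not kept are isolated and are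
never considered in `IsDiameter`. -/
def h {n : ℕ} (ω : Marks n) : SimpleGraph (Vertex n) where
  Adj x y := (x ∆ y).card = 1 ∧ Kept ω x ∧ Kept ω y ∧ ω (Sum.inr s(x, y)) = true
  symm := ⟨fun x y hxy => ⟨by rw [symmDiff_comm]; exact hxy.1, hxy.2.2.1, hxy.2.1,
    by rw [Sym2.eq_swap]; exact hxy.2.2.2⟩⟩
  loopless := ⟨fun x hx => by simpa using hx.1⟩

/-- `D(h_n) = D`: the largest distance between two kept vertices in the same component is `D`. -/
def IsDiameter {n : ℕ} (ω : Marks n) (D : ℕ) : Prop :=
  IsGreatest {d | ∃ x y : Vertex n, Kept ω x ∧ Kept ω y ∧ (h ω).Reachable x y ∧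
    (h ω).dist x y = d} D

/-- `m_p = ⌊-1 / log₂ (1 - p)⌋`. -/
noncomputable def m (p : ℝ) : ℕ := ⌊-1 / Real.logb 2 (1 - p)⌋₊

/-- **Q1 is true.** For all fixed `pv, pe ∈ (0,1]` with `pv * pe < 1/2`, asymptotically almost surely
`D(h_n) = n + m_p`, `p = pv * pe`. -/
theorem result (pv pe : ℝ) (hv0 : 0 < pv) (hv1 : pv ≤ 1) (he0 : 0 < pe) (he1 : pe ≤ 1)
    (hp : pv * pe < 1 / 2) :
    Tendsto (fun n : ℕ => prob pv pe n (fun ω => IsDiameter ω (n + m (pv * pe)))) atTop (𝓝 1) := by
  have key := Pool.Agent.Q157.DC.a_main pv pe hv0 hv1 he0 he1 hp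
  refine key.congr (fun n => ?_)
  unfold Pool.Agent.Q157.DC.Pr prob
  refine Finset.sum_congr rfl (fun ω _ => ?_)
  have hw : Pool.Agent.Q157.DC.wt (Pool.Agent.Q157.DC.rt pv pe n) ω = weight pv pe ω := by
    unfold Pool.Agent.Q157.DC.wt weight
    rw [Fintype.prod_sum_type]
    rfl
  rw [hw]
  rfl

end Pool.Agent.Results.MP_d3947f_pr.DiameterOfRandomCubicalGraphs
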